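import Pool.Agent.W8.KU.Stm

/-! Project KU (helper8), part Lip: Lipschitz constant of the deformation minus the identity. -/

open scoped Topology ContDiff
open MeasureTheory Metric

namespace Pool.Agent.W320.KU

open Pool.Agent.W8.KU

theorem cut_contDiff (u v : ℝ) : ContDiff ℝ 1 (fun s : ℝ => cut u v s) := by
  unfold cut
  apply ContDiff.sub contDiff_const
  exact Real.smoothTransition.contDiff.comp (by fun_prop)

theorem cut_eq_zero {u v s : ℝ} (huv : u < v) (h : v ≤ s) : cut u v s = 0 := by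
  unfold cut
  rw [Real.smoothTransition.one_of_one_le, sub_self]
  rw [le_div_iff₀ (by linarith)]
  linarith

theorem hcs {F : E3 → E3} (c : E3) (R : ℝ) (h : ∀ x, R < dist x c → F x = 0) :
    HasCompactSupport F := by
  apply HasCompactSupport.intro (isCompact_closedBall c R)
  intro x hx
  apply h
  rw [mem_closedBall, not_le] at hx
  exact hx

/-- the three vector fields -/
noncomputable def F1 (x : E3) : E3 := cut 7 8 (‖x - P0‖ ^ 2) • (x - P0)

noncomputable def F2 (x : E3) : E3 := cut 16 20 (‖x‖ ^ 2) • x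

noncomputable def F3 (x : E3) : E3 := (cut 49 60 (‖x‖ ^ 2) * (1 - cut 21 25 (‖x‖ ^ 2))) • x

theorem nsq (z : E3) : ContDiff ℝ 1 (fun x : E3 => ‖x - z‖ ^ 2) :=
  (contDiff_id.sub contDiff_const).norm_sq ℝ

theorem nsq0 : ContDiff ℝ 1 (fun x : E3 => ‖x‖ ^ 2) :=
  contDiff_id.norm_sq ℝ

theorem lip1 : ∃ C, LipschitzWith C F1 := by
  have h1 : ContDiff ℝ 1 F1 := by
    unfold F1
    exact ((cut_contDiff 7 8).comp (nsq P0)).smul (contDiff_id.sub contDiff_const)
  have h2 : HasCompactSupport F1 := by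
    apply hcs P0 3
    intro x hx
    unfold F1
    rw [cut_eq_zero (by norm_num), zero_smul]
    rw [dist_eq_norm] at hx
    nlinarith
  exact ContDiff.lipschitzWith_of_hasCompactSupport h2 h1 (by simp)

theorem lip2 : ∃ C, LipschitzWith C F2 := by
  have h1 : ContDiff ℝ 1 F2 := by
    unfold F2
    exact ((cut_contDiff 16 20).comp nsq0).smul contDiff_id
  have h2 : HasCompactSupport F2 := by
    apply hcs 0 5
    intro x hx
    unfold F2
    rw [cut_eq_zero (by norm_num), zero_smul]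
    rw [dist_zero_right] at hx
    nlinarith
  exact ContDiff.lipschitzWith_of_hasCompactSupport h2 h1 (by simp)

theorem lip3 : ∃ C, LipschitzWith C F3 := by
  have h1 : ContDiff ℝ 1 F3 := by
    unfold F3
    exact (((cut_contDiff 49 60).comp nsq0).mul
      (contDiff_const.sub ((cut_contDiff 21 25).comp nsq0))).smul contDiff_id
  have h2 : HasCompactSupport F3 := by
    apply hcs 0 8
    intro x hx
    unfold F3
    rw [cut_eq_zero (by norm_num), zero_mul, zero_smul]
    rw [dist_zero_right] at hx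
    nlinarith
  exact ContDiff.lipschitzWith_of_hasCompactSupport h2 h1 (by simp)

theorem Ph_sub (t : ℝ) (x : E3) :
    Ph t x - x = (ra t / 2 - 1) • F1 x + ((rc t / 3 - 1) • F2 x + (rb t / 6 - 1) • F3 x) := by
  unfold Ph F1 F2 F3
  rw [smul_smul, smul_smul, smul_smul, add_smul, add_assoc, add_sub_cancel_left]

theorem bnd {C : NNReal} {F : E3 → E3} (h : LipschitzWith C F) (a t : ℝ) (ha : |a| ≤ |t|)
    (x y : E3) : ‖a • F x - a • F y‖ ≤ C * |t| * ‖x - y‖ := by
  have h1 := h.dist_le_mul x y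
  rw [dist_eq_norm, dist_eq_norm] at h1
  rw [← smul_sub, norm_smul, Real.norm_eq_abs]
  calc |a| * ‖F x - F y‖ ≤ |t| * (C * ‖x - y‖) :=
        mul_le_mul ha h1 (norm_nonneg _) (abs_nonneg _)
    _ = C * |t| * ‖x - y‖ := by ring

theorem Lip_proof : Lip := by
  intro hR
  obtain ⟨C1, h1⟩ := lip1
  obtain ⟨C2, h2⟩ := lip2
  obtain ⟨C3, h3⟩ := lip3
  refine ⟨C1 + C2 + C3 + 1, by positivity, fun t ht x y => ?_⟩
  obtain ⟨-, -, -, -, -, -, ha, hb, hc, -⟩ := hR.2 t ht
  have e1 := bnd h1 _ t ha x y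
  have e2 := bnd h2 _ t hc x y
  have e3 := bnd h3 _ t hb x y
  rw [Ph_sub, Ph_sub]
  have e : (ra t / 2 - 1) • F1 x + ((rc t / 3 - 1) • F2 x + (rb t / 6 - 1) • F3 x) -
      ((ra t / 2 - 1) • F1 y + ((rc t / 3 - 1) • F2 y + (rb t / 6 - 1) • F3 y)) =
      ((ra t / 2 - 1) • F1 x - (ra t / 2 - 1) • F1 y) +
      (((rc t / 3 - 1) • F2 x - (rc t / 3 - 1) • F2 y) +
       ((rb t / 6 - 1) • F3 x - (rb t / 6 - 1) • F3 y)) := by abel
  rw [e]
  have n1 := norm_add_le ((ra t / 2 - 1) • F1 x - (ra t / 2 - 1) • F1 y)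
    (((rc t / 3 - 1) • F2 x - (rc t / 3 - 1) • F2 y) +
       ((rb t / 6 - 1) • F3 x - (rb t / 6 - 1) • F3 y))
  have n2 := norm_add_le ((rc t / 3 - 1) • F2 x - (rc t / 3 - 1) • F2 y)
       ((rb t / 6 - 1) • F3 x - (rb t / 6 - 1) • F3 y)
  have e4 : (0 : ℝ) ≤ |t| * ‖x - y‖ := by positivity
  linarith

end Pool.Agent.W320.KU
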